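import Mathlib
import Pool.Agent.Helper752.SquareLower2

/-!
Lower bound for the length of connected compact sets through eight points near the corners of the
square `[-1,1]²`: four of them (labels `0..3`) lie beyond the corners in the end directions of the
horizontal Steiner tree, by at least `δ`, and four (labels `4..7`) near the corners.
-/

set_option autoImplicit false

namespace Pool.Agent.Helper463_ST

open scoped ENNReal NNReal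
open MeasureTheory Metric Pool.Agent.Helper752

/-- General gap estimate. -/
theorem gapG {ι : Type*} [Fintype ι] [DecidableEq ι] {K : Set E2} {p : ι → E2} {B : ℝ}
    {M : Set (Finset ι)}
    (hB : ∀ φ : ι → E2 → ℝ, (∀ A ∈ M, LipOn K φ A) → (∀ x ∈ K, ∑ i, φ i x = 0) →
      ∑ i, φ i (p i) ≤ B)
    (a b c d e : ι)
    (hcase : ∀ A ∈ M, (c ∉ A ∧ d ∉ A ∧ e ∉ A) ∨ (a ∉ A ∧ b ∉ A) ∨ (a ∈ A ∧ b ∈ A) ∨
      (c ∈ A ∧ d ∈ A ∧ e ∈ A))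
    (gx gy cx cy dx dy ex ey : ℝ)
    (hg : gx ^ 2 + gy ^ 2 ≤ 1) (h1 : cx ^ 2 + cy ^ 2 ≤ 1) (h2 : dx ^ 2 + dy ^ 2 ≤ 1)
    (h3 : ex ^ 2 + ey ^ 2 ≤ 1) (hsx : cx + dx + ex = 0) (hsy : cy + dy + ey = 0) :
    gx * (p a 0 - p b 0) + gy * (p a 1 - p b 1) + (cx * p c 0 + cy * p c 1)
      + (dx * p d 0 + dy * p d 1) + (ex * p e 0 + ey * p e 1) ≤ B := by
  let X : ι → ℝ := fun i => (if i = a then gx else 0) + (if i = b then -gx else 0)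
    + (if i = c then cx else 0) + (if i = d then dx else 0) + (if i = e then ex else 0)
  let Y : ι → ℝ := fun i => (if i = a then gy else 0) + (if i = b then -gy else 0)
    + (if i = c then cy else 0) + (if i = d then dy else 0) + (if i = e then ey else 0)
  have hX : ∀ A : Finset ι, ∑ i ∈ A, X i = (if a ∈ A then gx else 0) + (if b ∈ A then -gx else 0)
    + (if c ∈ A then cx else 0) + (if d ∈ A then dx else 0) + (if e ∈ A then ex else 0) := by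
    intro A
    simp only [X, Finset.sum_add_distrib, Finset.sum_ite_eq']
  have hY : ∀ A : Finset ι, ∑ i ∈ A, Y i = (if a ∈ A then gy else 0) + (if b ∈ A then -gy else 0)
    + (if c ∈ A then cy else 0) + (if d ∈ A then dy else 0) + (if e ∈ A then ey else 0) := by
    intro A
    simp only [Y, Finset.sum_add_distrib, Finset.sum_ite_eq']
  have key := hB (lin X Y) ?_ ?_
  · have hval : ∑ i, lin X Y i (p i) = gx * (p a 0 - p b 0) + gy * (p a 1 - p b 1)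
        + (cx * p c 0 + cy * p c 1) + (dx * p d 0 + dy * p d 1) + (ex * p e 0 + ey * p e 1) := by
      simp only [lin, X, Y, add_mul, ite_mul, zero_mul, Finset.sum_add_distrib,
        Finset.sum_ite_eq', Finset.mem_univ, if_true]
      ring
    rw [hval] at key
    exact key
  · intro A hA
    apply lin_lipOn
    rw [hX, hY]
    have e1 : ex = -(cx + dx) := by linarith
    have e2 : ey = -(cy + dy) := by linarith
    rcases hcase A hA with ⟨h4, h5, h6⟩ | ⟨h4, h5⟩ | ⟨h4, h5⟩ | ⟨h4, h5, h6⟩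
    · rw [if_neg h4, if_neg h5, if_neg h6, if_neg h4, if_neg h5, if_neg h6]
      split_ifs <;> nlinarith
    · rw [if_neg h4, if_neg h5, if_neg h4, if_neg h5]
      subst e1 e2
      split_ifs <;> nlinarith
    · rw [if_pos h4, if_pos h5, if_pos h4, if_pos h5]
      subst e1 e2
      split_ifs <;> nlinarith
    · rw [if_pos h4, if_pos h5, if_pos h6, if_pos h4, if_pos h5, if_pos h6]
      subst e1 e2
      split_ifs <;> nlinarith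
  · intro x _
    have h4 : ∑ i, lin X Y i x = (∑ i, X i) * x 0 + (∑ i, Y i) * x 1 := by
      simp only [lin, Finset.sum_add_distrib, ← Finset.sum_mul]
    rw [h4, hX, hY]
    simp only [Finset.mem_univ, if_true]
    have e1 : ex = -(cx + dx) := by linarith
    have e2 : ey = -(cy + dy) := by linarith
    subst e1 e2
    ring

theorem z_cases (i : Fin 8) : (zx i = 1 ∨ zx i = -1) ∧ (zy i = 1 ∨ zy i = -1) := by
  fin_cases i <;> simp [zx, zy]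

/-- A pair of labels at different corners separated from a triple at three corners. -/
theorem gapc {K : Set E2} {p : Fin 8 → E2} {B : ℝ} {M : Set (Finset (Fin 8))}
    (hM : Laminar M)
    (hB : ∀ φ : Fin 8 → E2 → ℝ, (∀ A ∈ M, LipOn K φ A) → (∀ x ∈ K, ∑ i, φ i x = 0) →
      ∑ i, φ i (p i) ≤ B)
    (hx : ∀ i, |p i 0 - zx i| ≤ 1 / 30) (hy : ∀ i, |p i 1 - zy i| ≤ 1 / 30)
    (W : Finset (Fin 8)) (hW : W ∈ M) (a b c d e : Fin 8)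
    (hsep : (a ∈ W ∧ b ∈ W ∧ c ∉ W ∧ d ∉ W ∧ e ∉ W) ∨ (a ∉ W ∧ b ∉ W ∧ c ∈ W ∧ d ∈ W ∧ e ∈ W))
    (hab : zx a ≠ zx b ∨ zy a ≠ zy b)
    (hd1 : zx d = zx c) (hd2 : zy d = - zy c) (he1 : zx e = - zx c) (he2 : zy e = zy c) :
    5.6 ≤ B := by
  have hcase : ∀ A ∈ M, (c ∉ A ∧ d ∉ A ∧ e ∉ A) ∨ (a ∉ A ∧ b ∉ A) ∨ (a ∈ A ∧ b ∈ A) ∨
      (c ∈ A ∧ d ∈ A ∧ e ∈ A) := by
    intro A hA
    rcases hsep with ⟨ha, hb, hc, hd, he⟩ | ⟨ha, hb, hc, hd, he⟩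
    · rcases hM A hA W hW with h | h | h
      · left
        exact ⟨fun h' => hc (h h'), fun h' => hd (h h'), fun h' => he (h h')⟩
      · right; right; left
        exact ⟨h ha, h hb⟩
      · right; left
        exact ⟨fun h' => (Finset.disjoint_left.1 h h' ha), fun h' => (Finset.disjoint_left.1 h h' hb)⟩
    · rcases hM A hA W hW with h | h | h
      · right; left
        exact ⟨fun h' => ha (h h'), fun h' => hb (h h')⟩
      · right; right; right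
        exact ⟨h hc, h hd, h he⟩
      · left
        exact ⟨fun h' => (Finset.disjoint_left.1 h h' hc),
          fun h' => (Finset.disjoint_left.1 h h' hd), fun h' => (Finset.disjoint_left.1 h h' he)⟩
  have xa := abs_le.1 (hx a)
  have xb := abs_le.1 (hx b)
  have xc := abs_le.1 (hx c)
  have xd := abs_le.1 (hx d)
  have xe := abs_le.1 (hx e)
  have ya := abs_le.1 (hy a)
  have yb := abs_le.1 (hy b)
  have yc := abs_le.1 (hy c)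
  have yd := abs_le.1 (hy d)
  have ye := abs_le.1 (hy e)
  -- the pair
  have hpair : ∃ gx gy : ℝ, gx ^ 2 + gy ^ 2 ≤ 1 ∧
      2 - 2 / 30 ≤ gx * (p a 0 - p b 0) + gy * (p a 1 - p b 1) := by
    rcases hab with h | h
    · rcases (z_cases a).1 with h1 | h1 <;> rcases (z_cases b).1 with h2 | h2
      · exact absurd (h1.trans h2.symm) h
      · refine ⟨1, 0, by norm_num, ?_⟩
        rw [h1] at xa; rw [h2] at xb; linarith
      · refine ⟨-1, 0, by norm_num, ?_⟩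
        rw [h1] at xa; rw [h2] at xb; linarith
      · exact absurd (h1.trans h2.symm) h
    · rcases (z_cases a).2 with h1 | h1 <;> rcases (z_cases b).2 with h2 | h2
      · exact absurd (h1.trans h2.symm) h
      · refine ⟨0, 1, by norm_num, ?_⟩
        rw [h1] at ya; rw [h2] at yb; linarith
      · refine ⟨0, -1, by norm_num, ?_⟩
        rw [h1] at ya; rw [h2] at yb; linarith
      · exact absurd (h1.trans h2.symm) h
  obtain ⟨gx, gy, hg, hgv⟩ := hpair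
  rw [hd1] at xd
  rw [hd2] at yd
  rw [he1] at xe
  rw [he2] at ye
  rcases (z_cases c).1 with h1 | h1 <;> rcases (z_cases c).2 with h2 | h2 <;>
    rw [h1] at xc xd xe <;> rw [h2] at yc yd ye
  · have := gapG hB a b c d e hcase gx gy 0.68 0.68 0.28 (-0.96) (-0.96) 0.28 hg
      (by norm_num) (by norm_num) (by norm_num) (by norm_num) (by norm_num)
    linarith
  · have := gapG hB a b c d e hcase gx gy 0.68 (-0.68) 0.28 0.96 (-0.96) (-0.28) hg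
      (by norm_num) (by norm_num) (by norm_num) (by norm_num) (by norm_num)
    linarith
  · have := gapG hB a b c d e hcase gx gy (-0.68) 0.68 (-0.28) (-0.96) 0.96 0.28 hg
      (by norm_num) (by norm_num) (by norm_num) (by norm_num) (by norm_num)
    linarith
  · have := gapG hB a b c d e hcase gx gy (-0.68) (-0.68) (-0.28) 0.96 0.96 (-0.28) hg
      (by norm_num) (by norm_num) (by norm_num) (by norm_num) (by norm_num)
    linarith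

theorem card8 (A : Finset (Fin 8)) :
    A.card = (decide (0 ∈ A)).toNat + (decide (1 ∈ A)).toNat + (decide (2 ∈ A)).toNat
      + (decide (3 ∈ A)).toNat + (decide (4 ∈ A)).toNat + (decide (5 ∈ A)).toNat
      + (decide (6 ∈ A)).toNat + (decide (7 ∈ A)).toNat := by
  have h : A.card = ∑ i, if i ∈ A then 1 else 0 := by
    rw [Finset.sum_ite_mem]; simp
  rw [h, Fin.sum_univ_eight]
  have : ∀ i : Fin 8, (if i ∈ A then 1 else 0) = (decide (i ∈ A)).toNat := by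
    intro i
    by_cases h : i ∈ A <;> simp [h]
  simp only [this]

/-- The combinatorial core. -/
theorem core : ∀ b0 b1 b2 b3 b4 b5 b6 b7 : Bool,
    (b0 = b4 ∧ b1 = b5 ∧ b2 = b6 ∧ b3 = b7) ∨
    (b0.toNat + b1.toNat + b2.toNat + b3.toNat + b4.toNat + b5.toNat + b6.toNat + b7.toNat ≤ 1) ∨
    (7 ≤ b0.toNat + b1.toNat + b2.toNat + b3.toNat + b4.toNat + b5.toNat + b6.toNat + b7.toNat) ∨
    -- a pair inside, a triple outside
    ((((b0 || b4) && (b1 || b5)) || ((b0 || b4) && (b2 || b6)) || ((b0 || b4) && (b3 || b7)) ||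
      ((b1 || b5) && (b2 || b6)) || ((b1 || b5) && (b3 || b7)) || ((b2 || b6) && (b3 || b7))) = true
      ∧
      (((!b0 || !b4) && (!b1 || !b5) && (!b3 || !b7)) ||
        ((!b1 || !b5) && (!b0 || !b4) && (!b2 || !b6)) ||
        ((!b2 || !b6) && (!b3 || !b7) && (!b1 || !b5)) ||
        ((!b3 || !b7) && (!b2 || !b6) && (!b0 || !b4))) = true) ∨
    ((((!b0 || !b4) && (!b1 || !b5)) || ((!b0 || !b4) && (!b2 || !b6)) ||
      ((!b0 || !b4) && (!b3 || !b7)) || ((!b1 || !b5) && (!b2 || !b6)) ||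
      ((!b1 || !b5) && (!b3 || !b7)) || ((!b2 || !b6) && (!b3 || !b7))) = true ∧
      (((b0 || b4) && (b1 || b5) && (b3 || b7)) ||
        ((b1 || b5) && (b0 || b4) && (b2 || b6)) ||
        ((b2 || b6) && (b3 || b7) && (b1 || b5)) ||
        ((b3 || b7) && (b2 || b6) && (b0 || b4))) = true) := by
  decide

/-- Good sets of labels. -/
def Good (A : Finset (Fin 8)) : Prop :=
  ((0 ∈ A ↔ 4 ∈ A) ∧ (1 ∈ A ↔ 5 ∈ A) ∧ (2 ∈ A ↔ 6 ∈ A) ∧ (3 ∈ A ↔ 7 ∈ A)) ∨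
    A.card ≤ 1 ∨ 7 ≤ A.card

/-- Every set of labels is good or separates a pair from a triple. -/
theorem good_or (A : Finset (Fin 8)) : Good A ∨ ∃ a b c d e : Fin 8,
    ((a ∈ A ∧ b ∈ A ∧ c ∉ A ∧ d ∉ A ∧ e ∉ A) ∨ (a ∉ A ∧ b ∉ A ∧ c ∈ A ∧ d ∈ A ∧ e ∈ A)) ∧
    (zx a ≠ zx b ∨ zy a ≠ zy b) ∧
    zx d = zx c ∧ zy d = - zy c ∧ zx e = - zx c ∧ zy e = zy c := by
  have h := core (decide (0 ∈ A)) (decide (1 ∈ A)) (decide (2 ∈ A)) (decide (3 ∈ A))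
    (decide (4 ∈ A)) (decide (5 ∈ A)) (decide (6 ∈ A)) (decide (7 ∈ A))
  rw [← card8] at h
  have rep : ∀ (P : Fin 8 → Prop), (P 0 ∨ P 4 → ∃ i, P i ∧ zx i = -1 ∧ zy i = 1) ∧
      (P 1 ∨ P 5 → ∃ i, P i ∧ zx i = 1 ∧ zy i = 1) ∧
      (P 2 ∨ P 6 → ∃ i, P i ∧ zx i = 1 ∧ zy i = -1) ∧
      (P 3 ∨ P 7 → ∃ i, P i ∧ zx i = -1 ∧ zy i = -1) := by
    intro P
    refine ⟨?_, ?_, ?_, ?_⟩
    · rintro (h | h)
      · exact ⟨0, h, by simp [zx], by simp [zy]⟩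
      · exact ⟨4, h, by simp [zx], by simp [zy]⟩
    · rintro (h | h)
      · exact ⟨1, h, by simp [zx], by simp [zy]⟩
      · exact ⟨5, h, by simp [zx], by simp [zy]⟩
    · rintro (h | h)
      · exact ⟨2, h, by simp [zx], by simp [zy]⟩
      · exact ⟨6, h, by simp [zx], by simp [zy]⟩
    · rintro (h | h)
      · exact ⟨3, h, by simp [zx], by simp [zy]⟩
      · exact ⟨7, h, by simp [zx], by simp [zy]⟩
  have pair : ∀ (P : Fin 8 → Prop),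
      (((P 0 ∨ P 4) ∧ (P 1 ∨ P 5)) ∨ ((P 0 ∨ P 4) ∧ (P 2 ∨ P 6)) ∨ ((P 0 ∨ P 4) ∧ (P 3 ∨ P 7)) ∨
      ((P 1 ∨ P 5) ∧ (P 2 ∨ P 6)) ∨ ((P 1 ∨ P 5) ∧ (P 3 ∨ P 7)) ∨ ((P 2 ∨ P 6) ∧ (P 3 ∨ P 7))) →
      ∃ a b, P a ∧ P b ∧ (zx a ≠ zx b ∨ zy a ≠ zy b) := by
    intro P h
    obtain ⟨r0, r1, r2, r3⟩ := rep P
    rcases h with ⟨h1, h2⟩ | ⟨h1, h2⟩ | ⟨h1, h2⟩ | ⟨h1, h2⟩ | ⟨h1, h2⟩ | ⟨h1, h2⟩
    · obtain ⟨a, pa, ha1, ha2⟩ := r0 h1
      obtain ⟨b, pb, hb1, hb2⟩ := r1 h2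
      exact ⟨a, b, pa, pb, by rw [ha1, hb1]; norm_num⟩
    · obtain ⟨a, pa, ha1, ha2⟩ := r0 h1
      obtain ⟨b, pb, hb1, hb2⟩ := r2 h2
      exact ⟨a, b, pa, pb, by rw [ha1, hb1]; norm_num⟩
    · obtain ⟨a, pa, ha1, ha2⟩ := r0 h1
      obtain ⟨b, pb, hb1, hb2⟩ := r3 h2
      exact ⟨a, b, pa, pb, by rw [ha2, hb2]; norm_num⟩
    · obtain ⟨a, pa, ha1, ha2⟩ := r1 h1
      obtain ⟨b, pb, hb1, hb2⟩ := r2 h2
      exact ⟨a, b, pa, pb, by rw [ha2, hb2]; norm_num⟩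
    · obtain ⟨a, pa, ha1, ha2⟩ := r1 h1
      obtain ⟨b, pb, hb1, hb2⟩ := r3 h2
      exact ⟨a, b, pa, pb, by rw [ha2, hb2]; norm_num⟩
    · obtain ⟨a, pa, ha1, ha2⟩ := r2 h1
      obtain ⟨b, pb, hb1, hb2⟩ := r3 h2
      exact ⟨a, b, pa, pb, by rw [ha1, hb1]; norm_num⟩
  have trip : ∀ (P : Fin 8 → Prop),
      (((P 0 ∨ P 4) ∧ (P 1 ∨ P 5) ∧ (P 3 ∨ P 7)) ∨ ((P 1 ∨ P 5) ∧ (P 0 ∨ P 4) ∧ (P 2 ∨ P 6)) ∨
      ((P 2 ∨ P 6) ∧ (P 3 ∨ P 7) ∧ (P 1 ∨ P 5)) ∨ ((P 3 ∨ P 7) ∧ (P 2 ∨ P 6) ∧ (P 0 ∨ P 4))) →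
      ∃ c d e, P c ∧ P d ∧ P e ∧ zx d = zx c ∧ zy d = - zy c ∧ zx e = - zx c ∧ zy e = zy c := by
    intro P h
    obtain ⟨r0, r1, r2, r3⟩ := rep P
    rcases h with ⟨h1, h2, h3⟩ | ⟨h1, h2, h3⟩ | ⟨h1, h2, h3⟩ | ⟨h1, h2, h3⟩
    · obtain ⟨c, pc, hc1, hc2⟩ := r0 h1
      obtain ⟨e, pe, he1, he2⟩ := r1 h2
      obtain ⟨d, pd, hd1, hd2⟩ := r3 h3
      exact ⟨c, d, e, pc, pd, pe, by rw [hd1, hc1], by rw [hd2, hc2], by rw [he1, hc1]; norm_num,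
        by rw [he2, hc2]⟩
    · obtain ⟨c, pc, hc1, hc2⟩ := r1 h1
      obtain ⟨e, pe, he1, he2⟩ := r0 h2
      obtain ⟨d, pd, hd1, hd2⟩ := r2 h3
      exact ⟨c, d, e, pc, pd, pe, by rw [hd1, hc1], by rw [hd2, hc2], by rw [he1, hc1],
        by rw [he2, hc2]⟩
    · obtain ⟨c, pc, hc1, hc2⟩ := r2 h1
      obtain ⟨e, pe, he1, he2⟩ := r3 h2
      obtain ⟨d, pd, hd1, hd2⟩ := r1 h3
      exact ⟨c, d, e, pc, pd, pe, by rw [hd1, hc1], by rw [hd2, hc2]; norm_num, by rw [he1, hc1],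
        by rw [he2, hc2]⟩
    · obtain ⟨c, pc, hc1, hc2⟩ := r3 h1
      obtain ⟨e, pe, he1, he2⟩ := r2 h2
      obtain ⟨d, pd, hd1, hd2⟩ := r0 h3
      exact ⟨c, d, e, pc, pd, pe, by rw [hd1, hc1], by rw [hd2, hc2]; norm_num,
        by rw [he1, hc1]; norm_num, by rw [he2, hc2]⟩
  rcases h with h | h | h | ⟨h1, h2⟩ | ⟨h1, h2⟩
  · left; left
    simp only [decide_eq_decide] at h
    exact h
  · left; right; left; exact h
  · left; right; right; exact h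
  · right
    simp only [Bool.or_eq_true, Bool.and_eq_true, decide_eq_true_eq, Bool.not_eq_true',
      decide_eq_false_iff_not] at h1 h2
    obtain ⟨a, b, pa, pb, hab⟩ := pair (fun i => i ∈ A) (by simpa only [or_assoc] using h1)
    obtain ⟨c, d, e, pc, pd, pe, h3, h4, h5, h6⟩ := trip (fun i => i ∉ A)
      (by simpa only [or_assoc, and_assoc] using h2)
    exact ⟨a, b, c, d, e, Or.inl ⟨pa, pb, pc, pd, pe⟩, hab, h3, h4, h5, h6⟩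
  · right
    simp only [Bool.or_eq_true, Bool.and_eq_true, decide_eq_true_eq, Bool.not_eq_true',
      decide_eq_false_iff_not] at h1 h2
    obtain ⟨a, b, pa, pb, hab⟩ := pair (fun i => i ∉ A) (by simpa only [or_assoc] using h1)
    obtain ⟨c, d, e, pc, pd, pe, h3, h4, h5, h6⟩ := trip (fun i => i ∈ A)
      (by simpa only [or_assoc, and_assoc] using h2)
    exact ⟨a, b, c, d, e, Or.inr ⟨pa, pb, pc, pd, pe⟩, hab, h3, h4, h5, h6⟩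

/-- The horizontal potentials. -/
theorem horA {K : Set E2} {p : Fin 8 → E2} {B δ : ℝ} {M : Set (Finset (Fin 8))}
    (hB : ∀ φ : Fin 8 → E2 → ℝ, (∀ A ∈ M, LipOn K φ A) → (∀ x ∈ K, ∑ i, φ i x = 0) →
      ∑ i, φ i (p i) ≤ B)
    (h0 : δ ≤ -1 / 2 * (p 0 0 + 1) + √3 / 2 * (p 0 1 - 1))
    (h1 : δ ≤ 1 / 2 * (p 1 0 - 1) + √3 / 2 * (p 1 1 - 1))
    (h2 : δ ≤ 1 / 2 * (p 2 0 - 1) - √3 / 2 * (p 2 1 + 1))
    (h3 : δ ≤ -1 / 2 * (p 3 0 + 1) - √3 / 2 * (p 3 1 + 1))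
    (h : ∀ A ∈ M, ¬ (0 ∈ A ∧ 1 ∈ A ∧ 2 ∉ A ∧ 3 ∉ A) ∧ ¬ (0 ∉ A ∧ 1 ∉ A ∧ 2 ∈ A ∧ 3 ∈ A)) :
    2 + 2 * √3 + 4 * δ ≤ B := by
  let X : Fin 8 → ℝ := ![-1 / 2, 1 / 2, 1 / 2, -1 / 2, 0, 0, 0, 0]
  let Y : Fin 8 → ℝ := ![√3 / 2, √3 / 2, -(√3 / 2), -(√3 / 2), 0, 0, 0, 0]
  have key := hB (lin X Y) ?_ ?_
  · simp only [lin, Fin.sum_univ_eight] at key
    simp [X, Y] at key
    linarith
  · intro A hA
    apply lin_lipOn
    rw [sum8, sum8]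
    have h5 := h A hA
    have h6 := sq3
    by_cases b0 : (0 : Fin 8) ∈ A <;> by_cases b1 : (1 : Fin 8) ∈ A <;>
      by_cases b2 : (2 : Fin 8) ∈ A <;> by_cases b3 : (3 : Fin 8) ∈ A <;>
      simp [X, Y, b0, b1, b2, b3] at h5 ⊢ <;> nlinarith
  · intro x _
    simp [lin, Fin.sum_univ_eight, X, Y]
    ring

/-- Abscissae of the vertical potentials: `s_j` on the labels `0..3` and `t_j - s_j` on `4..7`. -/
noncomputable def VX : Fin 8 → ℝ := ![-1 / 2, 1 / 2, 1 / 2, -1 / 2,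
  -(√3 / 2) + 1 / 2, √3 / 2 - 1 / 2, √3 / 2 - 1 / 2, -(√3 / 2) + 1 / 2]
/-- Ordinates of the vertical potentials. -/
noncomputable def VY : Fin 8 → ℝ := ![√3 / 2, √3 / 2, -(√3 / 2), -(√3 / 2),
  1 / 2 - √3 / 2, 1 / 2 - √3 / 2, -1 / 2 + √3 / 2, -1 / 2 + √3 / 2]

theorem VX_sum : ∑ i, VX i = 0 := by
  simp [Fin.sum_univ_eight, VX]; ring

theorem VY_sum : ∑ i, VY i = 0 := by
  simp [Fin.sum_univ_eight, VY]; ring

theorem V_single (i : Fin 8) : VX i ^ 2 + VY i ^ 2 ≤ 1 := by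
  have h6 := sq3
  have h7 := sq3_lt
  have h8 : 1.5 < √3 := by
    rw [Real.lt_sqrt (by norm_num)]; norm_num
  fin_cases i <;> simp [VX, VY] <;> nlinarith

theorem V_good (A : Finset (Fin 8)) (hA : Good A)
    (h : ¬ (0 ∈ A ∧ 3 ∈ A ∧ 1 ∉ A ∧ 2 ∉ A) ∧ ¬ (0 ∉ A ∧ 3 ∉ A ∧ 1 ∈ A ∧ 2 ∈ A)) :
    (∑ i ∈ A, VX i) ^ 2 + (∑ i ∈ A, VY i) ^ 2 ≤ 1 := by
  have single : ∀ C : Finset (Fin 8), C.card ≤ 1 →
      (∑ i ∈ C, VX i) ^ 2 + (∑ i ∈ C, VY i) ^ 2 ≤ 1 := by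
    intro C hC
    obtain ⟨i, hi⟩ := Finset.card_le_one_iff_subset_singleton.1 hC
    rcases Finset.subset_singleton_iff.1 hi with rfl | rfl
    · simp
    · simpa using V_single i
  rcases hA with ⟨h0, h1, h2, h3⟩ | hA | hA
  · rw [sum8, sum8]
    have h6 := sq3
    have h7 := sq3_lt
    simp only [← h0, ← h1, ← h2, ← h3]
    by_cases b0 : (0 : Fin 8) ∈ A <;> by_cases b1 : (1 : Fin 8) ∈ A <;>
      by_cases b2 : (2 : Fin 8) ∈ A <;> by_cases b3 : (3 : Fin 8) ∈ A <;>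
      simp [VX, VY, b0, b1, b2, b3] at h ⊢ <;> nlinarith
  · exact single A hA
  · have hc : Aᶜ.card ≤ 1 := by
      rw [Finset.card_compl, Fintype.card_fin]; omega
    have e1 : ∑ i ∈ A, VX i = - ∑ i ∈ Aᶜ, VX i := by
      have := Finset.sum_add_sum_compl A VX
      rw [VX_sum] at this; linarith
    have e2 : ∑ i ∈ A, VY i = - ∑ i ∈ Aᶜ, VY i := by
      have := Finset.sum_add_sum_compl A VY
      rw [VY_sum] at this; linarith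
    rw [e1, e2, neg_sq, neg_sq]
    exact single _ hc

theorem verB {K : Set E2} {p : Fin 8 → E2} {B δ : ℝ} {M : Set (Finset (Fin 8))}
    (hB : ∀ φ : Fin 8 → E2 → ℝ, (∀ A ∈ M, LipOn K φ A) → (∀ x ∈ K, ∑ i, φ i x = 0) →
      ∑ i, φ i (p i) ≤ B)
    (h0 : δ ≤ -1 / 2 * (p 0 0 + 1) + √3 / 2 * (p 0 1 - 1))
    (h1 : δ ≤ 1 / 2 * (p 1 0 - 1) + √3 / 2 * (p 1 1 - 1))
    (h2 : δ ≤ 1 / 2 * (p 2 0 - 1) - √3 / 2 * (p 2 1 + 1))
    (h3 : δ ≤ -1 / 2 * (p 3 0 + 1) - √3 / 2 * (p 3 1 + 1))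
    (h4 : 0 ≤ -(p 4 0 + 1) - (p 4 1 - 1)) (h5 : 0 ≤ (p 5 0 - 1) - (p 5 1 - 1))
    (h6 : 0 ≤ (p 6 0 - 1) + (p 6 1 + 1)) (h7 : 0 ≤ -(p 7 0 + 1) + (p 7 1 + 1))
    (hgood : ∀ A ∈ M, Good A)
    (h : ∀ A ∈ M, ¬ (0 ∈ A ∧ 3 ∈ A ∧ 1 ∉ A ∧ 2 ∉ A) ∧ ¬ (0 ∉ A ∧ 3 ∉ A ∧ 1 ∈ A ∧ 2 ∈ A)) :
    2 + 2 * √3 + 4 * δ ≤ B := by
  have key := hB (lin VX VY) ?_ ?_
  · have h8 : 1 < √3 := by
      rw [Real.lt_sqrt (by norm_num)]; norm_num
    have k4 := mul_nonneg (by linarith : 0 ≤ (√3 - 1) / 2) h4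
    have k5 := mul_nonneg (by linarith : 0 ≤ (√3 - 1) / 2) h5
    have k6 := mul_nonneg (by linarith : 0 ≤ (√3 - 1) / 2) h6
    have k7 := mul_nonneg (by linarith : 0 ≤ (√3 - 1) / 2) h7
    simp only [lin, Fin.sum_univ_eight] at key
    simp [VX, VY] at key
    linarith
  · intro A hA
    apply lin_lipOn
    exact V_good A (hgood A hA) (h A hA)
  · intro x _
    simp only [lin, Finset.sum_add_distrib, ← Finset.sum_mul]
    rw [VX_sum, VY_sum]; ring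

theorem lowerL {K : Set E2} {p : Fin 8 → E2} {B δ : ℝ} {M : Set (Finset (Fin 8))}
    (hM : Laminar M)
    (hB : ∀ φ : Fin 8 → E2 → ℝ, (∀ A ∈ M, LipOn K φ A) → (∀ x ∈ K, ∑ i, φ i x = 0) →
      ∑ i, φ i (p i) ≤ B)
    (hx : ∀ i, |p i 0 - zx i| ≤ 1 / 30) (hy : ∀ i, |p i 1 - zy i| ≤ 1 / 30)
    (hδ : δ ≤ 1 / 50)
    (h0 : δ ≤ -1 / 2 * (p 0 0 + 1) + √3 / 2 * (p 0 1 - 1))
    (h1 : δ ≤ 1 / 2 * (p 1 0 - 1) + √3 / 2 * (p 1 1 - 1))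
    (h2 : δ ≤ 1 / 2 * (p 2 0 - 1) - √3 / 2 * (p 2 1 + 1))
    (h3 : δ ≤ -1 / 2 * (p 3 0 + 1) - √3 / 2 * (p 3 1 + 1))
    (h4 : 0 ≤ -(p 4 0 + 1) - (p 4 1 - 1)) (h5 : 0 ≤ (p 5 0 - 1) - (p 5 1 - 1))
    (h6 : 0 ≤ (p 6 0 - 1) + (p 6 1 + 1)) (h7 : 0 ≤ -(p 7 0 + 1) + (p 7 1 + 1)) :
    2 + 2 * √3 + 4 * δ ≤ B := by
  by_cases hgood : ∀ A ∈ M, Good A
  · by_cases c1 : ∀ A ∈ M, ¬ (0 ∈ A ∧ 1 ∈ A ∧ 2 ∉ A ∧ 3 ∉ A) ∧
        ¬ (0 ∉ A ∧ 1 ∉ A ∧ 2 ∈ A ∧ 3 ∈ A)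
    · exact horA hB h0 h1 h2 h3 c1
    by_cases c2 : ∀ A ∈ M, ¬ (0 ∈ A ∧ 3 ∈ A ∧ 1 ∉ A ∧ 2 ∉ A) ∧ ¬ (0 ∉ A ∧ 3 ∉ A ∧ 1 ∈ A ∧ 2 ∈ A)
    · exact verB hB h0 h1 h2 h3 h4 h5 h6 h7 hgood c2
    exfalso
    push Not at c1 c2
    obtain ⟨S, hS, hS'⟩ := c1
    obtain ⟨T, hT, hT'⟩ := c2
    have hS'' : (0 ∈ S ∧ 1 ∈ S ∧ 2 ∉ S ∧ 3 ∉ S) ∨ (0 ∉ S ∧ 1 ∉ S ∧ 2 ∈ S ∧ 3 ∈ S) := by tauto
    have hT'' : (0 ∈ T ∧ 3 ∈ T ∧ 1 ∉ T ∧ 2 ∉ T) ∨ (0 ∉ T ∧ 3 ∉ T ∧ 1 ∈ T ∧ 2 ∈ T) := by tauto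
    clear hS' hT'
    have hsub : ∀ {A C : Finset (Fin 8)} {i : Fin 8}, A ⊆ C → i ∈ A → i ∉ C → False :=
      fun h h' h'' => h'' (h h')
    have hdis : ∀ {A C : Finset (Fin 8)} {i : Fin 8}, Disjoint A C → i ∈ A → i ∈ C → False :=
      fun h h' h'' => Finset.disjoint_left.1 h h' h''
    rcases hS'' with ⟨s0, s1, s2, s3⟩ | ⟨s0, s1, s2, s3⟩ <;>
      rcases hT'' with ⟨t0, t3, t1, t2⟩ | ⟨t0, t3, t1, t2⟩
    · rcases hM S hS T hT with h | h | h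
      · exact hsub h s1 t1
      · exact hsub h t3 s3
      · exact hdis h s0 t0
    · rcases hM S hS T hT with h | h | h
      · exact hsub h s0 t0
      · exact hsub h t2 s2
      · exact hdis h s1 t1
    · rcases hM S hS T hT with h | h | h
      · exact hsub h s2 t2
      · exact hsub h t0 s0
      · exact hdis h s3 t3
    · rcases hM S hS T hT with h | h | h
      · exact hsub h s3 t3
      · exact hsub h t1 s1
      · exact hdis h s2 t2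
  · push Not at hgood
    obtain ⟨W, hW, hWb⟩ := hgood
    rcases good_or W with hg | ⟨a, b, c, d, e, hsep, hab, k1, k2, k3, k4⟩
    · exact absurd hg hWb
    · have := gapc hM hB hx hy W hW a b c d e hsep hab k1 k2 k3 k4
      have h3 := sq3_lt
      linarith

/-- The length bound. -/
theorem lower_bound {K : Set E2} (hK : IsCompact K) (hc : IsConnected K) (p : Fin 8 → E2)
    (hp : ∀ i, p i ∈ K) (δ : ℝ) (hδ : δ ≤ 1 / 50)
    (hx : ∀ i, |p i 0 - zx i| ≤ 1 / 30) (hy : ∀ i, |p i 1 - zy i| ≤ 1 / 30)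
    (h0 : δ ≤ -1 / 2 * (p 0 0 + 1) + √3 / 2 * (p 0 1 - 1))
    (h1 : δ ≤ 1 / 2 * (p 1 0 - 1) + √3 / 2 * (p 1 1 - 1))
    (h2 : δ ≤ 1 / 2 * (p 2 0 - 1) - √3 / 2 * (p 2 1 + 1))
    (h3 : δ ≤ -1 / 2 * (p 3 0 + 1) - √3 / 2 * (p 3 1 + 1))
    (h4 : 0 ≤ -(p 4 0 + 1) - (p 4 1 - 1)) (h5 : 0 ≤ (p 5 0 - 1) - (p 5 1 - 1))
    (h6 : 0 ≤ (p 6 0 - 1) + (p 6 1 + 1)) (h7 : 0 ≤ -(p 7 0 + 1) + (p 7 1 + 1)) :
    ENNReal.ofReal (2 + 2 * √3 + 4 * δ) ≤ μH[1] K := by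
  by_contra hlt
  push Not at hlt
  have hfin : μH[1] K ≠ ∞ := ne_top_of_lt hlt
  set L := (μH[1] K).toReal with hL
  have hL0 : 0 ≤ L := ENNReal.toReal_nonneg
  have hLlt : L < 2 + 2 * √3 + 4 * δ := by
    rw [hL]
    exact (ENNReal.lt_ofReal_iff_toReal_lt hfin).1 hlt
  obtain ⟨M, hM, _, hB⟩ := exists_laminar hK hc p hp L hL0 (by rw [hL, ENNReal.ofReal_toReal hfin])
    ((2 + 2 * √3 + 4 * δ - L) / 2) (by linarith)
  have := lowerL hM hB hx hy hδ h0 h1 h2 h3 h4 h5 h6 h7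
  linarith

end Pool.Agent.Helper463_ST
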