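import Mathlib
import Pool.Agent.Helper463_ST.Lower

/-!
The two Steiner trees of the eight terminals.
-/

set_option autoImplicit false

namespace Pool.Agent.Helper463_ST

open scoped ENNReal NNReal
open MeasureTheory Metric Pool.Agent.Helper752

theorem sq3_gt : 1.732 < √3 := by
  rw [Real.lt_sqrt (by norm_num)]; norm_num

theorem compact_segment (a b : E2) : IsCompact (segment ℝ a b) := by
  rw [segment_eq_image_lineMap]
  exact isCompact_Icc.image AffineMap.lineMap_continuous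

theorem conn_segment (a b : E2) : IsConnected (segment ℝ a b) :=
  (convex_segment a b).isConnected ⟨a, left_mem_segment ℝ a b⟩

theorem conn_tree (a b c d e f : E2) :
    IsConnected (segment ℝ a e ∪ segment ℝ b e ∪ segment ℝ e f ∪ segment ℝ f c
      ∪ segment ℝ f d) := by
  refine IsConnected.union ⟨f, ?_, left_mem_segment ℝ f d⟩ (IsConnected.union
    ⟨f, ?_, left_mem_segment ℝ f c⟩ (IsConnected.union ⟨e, ?_, left_mem_segment ℝ e f⟩
    (IsConnected.union ⟨e, right_mem_segment ℝ a e, right_mem_segment ℝ b e⟩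
      (conn_segment _ _) (conn_segment _ _)) (conn_segment _ _)) (conn_segment _ _))
      (conn_segment _ _)
  · exact Or.inl (Or.inr (right_mem_segment ℝ e f))
  · exact Or.inr (right_mem_segment ℝ e f)
  · exact Or.inr (right_mem_segment ℝ b e)

theorem len_seg (a b : E2) (ℓ : ℝ) (h : dist a b ≤ ℓ) :
    μH[1] (segment ℝ a b) ≤ ENNReal.ofReal ℓ := by
  rw [hausdorffMeasure_segment, edist_dist]
  exact ENNReal.ofReal_le_ofReal h

theorem len_tree (a b c d e f : E2) (ℓ m : ℝ) (hℓ : 0 ≤ ℓ) (hm : 0 ≤ m) (h1 : dist a e ≤ ℓ)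
    (h2 : dist b e ≤ ℓ) (h3 : dist e f ≤ m) (h4 : dist f c ≤ ℓ) (h5 : dist f d ≤ ℓ) :
    μH[1] (segment ℝ a e ∪ segment ℝ b e ∪ segment ℝ e f ∪ segment ℝ f c
      ∪ segment ℝ f d) ≤ ENNReal.ofReal (4 * ℓ + m) := by
  have e1 : 4 * ℓ + m = ((((ℓ + ℓ) + m) + ℓ) + ℓ) := by ring
  rw [e1, ENNReal.ofReal_add (by positivity) hℓ, ENNReal.ofReal_add (by positivity) hℓ,
    ENNReal.ofReal_add (by positivity) hm, ENNReal.ofReal_add hℓ hℓ]
  refine (measure_union_le _ _).trans (add_le_add ?_ (len_seg _ _ _ h5))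
  refine (measure_union_le _ _).trans (add_le_add ?_ (len_seg _ _ _ h4))
  refine (measure_union_le _ _).trans (add_le_add ?_ (len_seg _ _ _ h3))
  exact (measure_union_le _ _).trans (add_le_add (len_seg _ _ _ h1) (len_seg _ _ _ h2))

theorem dist_le_of (a b c d ℓ : ℝ) (hℓ : 0 ≤ ℓ) (h : (a - c) ^ 2 + (b - d) ^ 2 ≤ ℓ ^ 2) :
    dist (!₂[a, b] : E2) !₂[c, d] ≤ ℓ := by
  rw [EuclideanSpace.dist_eq]
  apply Real.sqrt_le_iff.2 ⟨hℓ, _⟩
  simpa [Fin.sum_univ_two, Real.dist_eq, sq_abs] using h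

/-- The corner `(σ, τ)` of the square. -/
noncomputable def bb (σ τ : ℝ) : E2 := !₂[σ, τ]

/-- The end point of the pendant edge at the corner `(σ, τ)`. -/
noncomputable def PP (σ τ : ℝ) : E2 := !₂[σ * (1 + 1 / 100), τ * (1 + √3 / 100)]

@[simp] theorem bb_zero (σ τ : ℝ) : (bb σ τ) 0 = σ := by simp [bb]
@[simp] theorem bb_one (σ τ : ℝ) : (bb σ τ) 1 = τ := by simp [bb]
@[simp] theorem PP_zero (σ τ : ℝ) : (PP σ τ) 0 = σ * (1 + 1 / 100) := by simp [PP]
@[simp] theorem PP_one (σ τ : ℝ) : (PP σ τ) 1 = τ * (1 + √3 / 100) := by simp [PP]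

/-- The first tree: it passes straight through the four corners. -/
noncomputable def SS : Set E2 :=
  segment ℝ (PP (-1) 1) !₂[-(1 - √3 / 3), 0] ∪ segment ℝ (PP (-1) (-1)) !₂[-(1 - √3 / 3), 0]
    ∪ segment ℝ !₂[-(1 - √3 / 3), 0] !₂[1 - √3 / 3, 0]
    ∪ segment ℝ !₂[1 - √3 / 3, 0] (PP 1 1) ∪ segment ℝ !₂[1 - √3 / 3, 0] (PP 1 (-1))

/-- The vertical Steiner tree of the square. -/
noncomputable def SB : Set E2 :=
  segment ℝ (bb 1 (-1)) !₂[0, -(1 - √3 / 3)] ∪ segment ℝ (bb (-1) (-1)) !₂[0, -(1 - √3 / 3)]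
    ∪ segment ℝ !₂[0, -(1 - √3 / 3)] !₂[0, 1 - √3 / 3]
    ∪ segment ℝ !₂[0, 1 - √3 / 3] (bb 1 1) ∪ segment ℝ !₂[0, 1 - √3 / 3] (bb (-1) 1)

/-- The second tree: the vertical Steiner tree of the square with the four pendant edges. -/
noncomputable def TT : Set E2 :=
  SB ∪ segment ℝ (bb 1 1) (PP 1 1) ∪ segment ℝ (bb 1 (-1)) (PP 1 (-1))
    ∪ segment ℝ (bb (-1) 1) (PP (-1) 1) ∪ segment ℝ (bb (-1) (-1)) (PP (-1) (-1))

theorem SS_compact : IsCompact SS :=
  ((((compact_segment _ _).union (compact_segment _ _)).union (compact_segment _ _)).union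
    (compact_segment _ _)).union (compact_segment _ _)

theorem SB_compact : IsCompact SB :=
  ((((compact_segment _ _).union (compact_segment _ _)).union (compact_segment _ _)).union
    (compact_segment _ _)).union (compact_segment _ _)

theorem TT_compact : IsCompact TT :=
  (((SB_compact.union (compact_segment _ _)).union (compact_segment _ _)).union
    (compact_segment _ _)).union (compact_segment _ _)

theorem SS_conn : IsConnected SS := conn_tree _ _ _ _ _ _

theorem SB_conn : IsConnected SB := conn_tree _ _ _ _ _ _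

theorem corner_SB (σ τ : ℝ) (hx : σ = 1 ∨ σ = -1) (hy : τ = 1 ∨ τ = -1) : bb σ τ ∈ SB := by
  unfold SB
  rcases hx with rfl | rfl <;> rcases hy with rfl | rfl
  · exact Or.inl (Or.inr (right_mem_segment ℝ _ _))
  · exact Or.inl (Or.inl (Or.inl (Or.inl (left_mem_segment ℝ _ _))))
  · exact Or.inr (right_mem_segment ℝ _ _)
  · exact Or.inl (Or.inl (Or.inl (Or.inr (left_mem_segment ℝ _ _))))

theorem TT_conn : IsConnected TT := by
  unfold TT
  refine IsConnected.union ⟨bb (-1) (-1), ?_, left_mem_segment ℝ _ _⟩ (IsConnected.union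
    ⟨bb (-1) 1, ?_, left_mem_segment ℝ _ _⟩ (IsConnected.union ⟨bb 1 (-1), ?_, left_mem_segment ℝ _ _⟩
    (IsConnected.union ⟨bb 1 1, ?_, left_mem_segment ℝ _ _⟩
      SB_conn (conn_segment _ _)) (conn_segment _ _)) (conn_segment _ _))
      (conn_segment _ _)
  · exact Or.inl (Or.inl (Or.inl (corner_SB _ _ (by norm_num) (by norm_num))))
  · exact Or.inl (Or.inl (corner_SB _ _ (by norm_num) (by norm_num)))
  · exact Or.inl (corner_SB _ _ (by norm_num) (by norm_num))
  · exact corner_SB _ _ (by norm_num) (by norm_num)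

theorem corner_TT (σ τ : ℝ) (hx : σ = 1 ∨ σ = -1) (hy : τ = 1 ∨ τ = -1) : bb σ τ ∈ TT :=
  Or.inl (Or.inl (Or.inl (Or.inl (corner_SB σ τ hx hy))))

theorem PP_TT (σ τ : ℝ) (hx : σ = 1 ∨ σ = -1) (hy : τ = 1 ∨ τ = -1) : PP σ τ ∈ TT := by
  unfold TT
  rcases hx with rfl | rfl <;> rcases hy with rfl | rfl
  · exact Or.inl (Or.inl (Or.inl (Or.inr (right_mem_segment ℝ _ _))))
  · exact Or.inl (Or.inl (Or.inr (right_mem_segment ℝ _ _)))
  · exact Or.inl (Or.inr (right_mem_segment ℝ _ _))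
  · exact Or.inr (right_mem_segment ℝ _ _)

theorem PP_SS (σ τ : ℝ) (hx : σ = 1 ∨ σ = -1) (hy : τ = 1 ∨ τ = -1) : PP σ τ ∈ SS := by
  unfold SS
  rcases hx with rfl | rfl <;> rcases hy with rfl | rfl
  · exact Or.inl (Or.inr (right_mem_segment ℝ _ _))
  · exact Or.inr (right_mem_segment ℝ _ _)
  · exact Or.inl (Or.inl (Or.inl (Or.inl (left_mem_segment ℝ _ _))))
  · exact Or.inl (Or.inl (Or.inl (Or.inr (left_mem_segment ℝ _ _))))

/-- The corner lies on the edge ending at the pendant end point. -/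
theorem bb_seg (σ τ : ℝ) : bb σ τ ∈ segment ℝ (PP σ τ) !₂[σ * (1 - √3 / 3), 0] := by
  have h1 := sq3_pos
  refine ⟨1 / (1 + √3 / 100), (√3 / 100) / (1 + √3 / 100), by positivity, by positivity, ?_, ?_⟩
  · rw [← add_div, div_self (by positivity)]
  · have h3 := sq3
    have hne : (1 + √3 / 100) ≠ 0 := by positivity
    ext i
    fin_cases i
    · simp [bb, PP]
      field_simp
      linear_combination (-σ) * h3
    · simp [bb, PP]
      field_simp

theorem bb_SS (σ τ : ℝ) (hx : σ = 1 ∨ σ = -1) (hy : τ = 1 ∨ τ = -1) : bb σ τ ∈ SS := by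
  have h := bb_seg σ τ
  unfold SS
  rcases hx with rfl | rfl
  · rw [one_mul, segment_symm] at h
    rcases hy with rfl | rfl
    · exact Or.inl (Or.inr h)
    · exact Or.inr h
  · rw [neg_one_mul] at h
    rcases hy with rfl | rfl
    · exact Or.inl (Or.inl (Or.inl (Or.inl h)))
    · exact Or.inl (Or.inl (Or.inl (Or.inr h)))

theorem SS_len : μH[1] SS ≤ ENNReal.ofReal (2 + 2 * √3 + 4 * (1 / 50)) := by
  have h1 := sq3_gt
  have h2 := sq3_lt
  have h3 := sq3
  have h := len_tree (PP (-1) 1) (PP (-1) (-1)) (PP 1 1) (PP 1 (-1)) !₂[-(1 - √3 / 3), 0]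
    !₂[1 - √3 / 3, 0] (2 * √3 / 3 + 1 / 50) (2 - 2 * √3 / 3) (by positivity) (by linarith)
    (dist_le_of _ _ _ _ _ (by positivity) (by nlinarith))
    (dist_le_of _ _ _ _ _ (by positivity) (by nlinarith))
    (dist_le_of _ _ _ _ _ (by linarith) (by nlinarith))
    (dist_le_of _ _ _ _ _ (by positivity) (by nlinarith))
    (dist_le_of _ _ _ _ _ (by positivity) (by nlinarith))
  have e : 4 * (2 * √3 / 3 + 1 / 50) + (2 - 2 * √3 / 3) = 2 + 2 * √3 + 4 * (1 / 50) := by ring
  rw [e] at h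
  exact h

theorem SB_len : μH[1] SB ≤ ENNReal.ofReal (2 + 2 * √3) := by
  have h1 := sq3_gt
  have h2 := sq3_lt
  have h3 := sq3
  have h := len_tree (bb 1 (-1)) (bb (-1) (-1)) (bb 1 1) (bb (-1) 1) !₂[0, -(1 - √3 / 3)]
    !₂[0, 1 - √3 / 3]
    (2 * √3 / 3) (2 - 2 * √3 / 3) (by positivity) (by linarith)
    (dist_le_of _ _ _ _ _ (by positivity) (by nlinarith))
    (dist_le_of _ _ _ _ _ (by positivity) (by nlinarith))
    (dist_le_of _ _ _ _ _ (by linarith) (by nlinarith))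
    (dist_le_of _ _ _ _ _ (by positivity) (by nlinarith))
    (dist_le_of _ _ _ _ _ (by positivity) (by nlinarith))
  have e : 4 * (2 * √3 / 3) + (2 - 2 * √3 / 3) = 2 + 2 * √3 := by ring
  rw [e] at h
  exact h

theorem pend_len (σ τ : ℝ) (hx : σ = 1 ∨ σ = -1) (hy : τ = 1 ∨ τ = -1) :
    μH[1] (segment ℝ (bb σ τ) (PP σ τ)) ≤ ENNReal.ofReal (1 / 50) := by
  apply len_seg
  have h3 := sq3
  have e1 : σ ^ 2 = 1 := by rcases hx with rfl | rfl <;> norm_num
  have e2 : τ ^ 2 = 1 := by rcases hy with rfl | rfl <;> norm_num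
  refine dist_le_of _ _ _ _ _ (by norm_num) ?_
  have : (σ - σ * (1 + 1 / 100)) ^ 2 + (τ - τ * (1 + √3 / 100)) ^ 2
      = (σ ^ 2 + τ ^ 2 * √3 ^ 2) / 10000 := by ring
  rw [this, e1, e2, h3]
  norm_num

theorem TT_len : μH[1] TT ≤ ENNReal.ofReal (2 + 2 * √3 + 4 * (1 / 50)) := by
  have e : 2 + 2 * √3 + 4 * (1 / 50)
      = ((((2 + 2 * √3) + 1 / 50) + 1 / 50) + 1 / 50) + (1 / 50 : ℝ) := by ring
  rw [e, ENNReal.ofReal_add (by positivity) (by norm_num),
    ENNReal.ofReal_add (by positivity) (by norm_num),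
    ENNReal.ofReal_add (by positivity) (by norm_num),
    ENNReal.ofReal_add (by positivity) (by norm_num)]
  refine (measure_union_le _ _).trans (add_le_add ?_ (pend_len _ _ (by norm_num) (by norm_num)))
  refine (measure_union_le _ _).trans (add_le_add ?_ (pend_len _ _ (by norm_num) (by norm_num)))
  refine (measure_union_le _ _).trans (add_le_add ?_ (pend_len _ _ (by norm_num) (by norm_num)))
  exact (measure_union_le _ _).trans (add_le_add SB_len (pend_len _ _ (by norm_num) (by norm_num)))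

/-- Coordinates of the points of the second tree. -/
theorem TT_char (x : E2) (hx : x ∈ TT) :
    (∃ σ τ t : ℝ, (σ = 1 ∨ σ = -1) ∧ (τ = 1 ∨ τ = -1) ∧ 0 ≤ t ∧ t ≤ 1 ∧
      x 0 = σ * (1 - t) ∧ x 1 = τ * (1 - t * (√3 / 3))) ∨
    (∃ σ τ t : ℝ, (σ = 1 ∨ σ = -1) ∧ (τ = 1 ∨ τ = -1) ∧ 0 ≤ t ∧ t ≤ 1 ∧
      x 0 = σ * (1 + t / 100) ∧ x 1 = τ * (1 + t * (√3 / 100))) ∨
    (x 0 = 0 ∧ |x 1| ≤ 1 - √3 / 3) := by
  have h1 := sq3_gt
  have h2 := sq3_lt
  unfold TT SB at hx
  have leaf : ∀ σ τ : ℝ, (σ = 1 ∨ σ = -1) → (τ = 1 ∨ τ = -1) →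
      x ∈ segment ℝ (bb σ τ) (PP σ τ) →
      (∃ σ τ t : ℝ, (σ = 1 ∨ σ = -1) ∧ (τ = 1 ∨ τ = -1) ∧ 0 ≤ t ∧ t ≤ 1 ∧
      x 0 = σ * (1 + t / 100) ∧ x 1 = τ * (1 + t * (√3 / 100))) := by
    rintro σ τ hσ hτ ⟨s, t, hs, ht, hst, rfl⟩
    refine ⟨σ, τ, t, hσ, hτ, ht, by linarith, ?_, ?_⟩
    · have : s = 1 - t := by linarith
      subst this
      simp [bb, PP]; ring
    · have : s = 1 - t := by linarith
      subst this
      simp [bb, PP]; ring
  have inner : ∀ σ τ : ℝ, (σ = 1 ∨ σ = -1) → (τ = 1 ∨ τ = -1) →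
      x ∈ segment ℝ (bb σ τ) !₂[0, τ * (1 - √3 / 3)] →
      (∃ σ τ t : ℝ, (σ = 1 ∨ σ = -1) ∧ (τ = 1 ∨ τ = -1) ∧ 0 ≤ t ∧ t ≤ 1 ∧
      x 0 = σ * (1 - t) ∧ x 1 = τ * (1 - t * (√3 / 3))) := by
    rintro σ τ hσ hτ ⟨s, t, hs, ht, hst, rfl⟩
    refine ⟨σ, τ, t, hσ, hτ, ht, by linarith, ?_, ?_⟩
    · have : s = 1 - t := by linarith
      subst this
      simp [bb]; ring
    · have : s = 1 - t := by linarith
      subst this
      simp [bb]; ring
  rcases hx with ((((((((hx | hx) | hx) | hx) | hx) | hx) | hx) | hx) | hx)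
  · left
    exact inner 1 (-1) (by norm_num) (by norm_num) (by rwa [neg_one_mul])
  · left
    exact inner (-1) (-1) (by norm_num) (by norm_num) (by rwa [neg_one_mul])
  · right; right
    obtain ⟨s, t, hs, ht, hst, rfl⟩ := hx
    refine ⟨by simp, ?_⟩
    have e1 : (s • (!₂[0, -(1 - √3 / 3)] : E2) + t • (!₂[0, 1 - √3 / 3] : E2)) 1
        = (t - s) * (1 - √3 / 3) := by simp; ring
    rw [e1, abs_mul, abs_of_nonneg (a := 1 - √3 / 3) (by linarith)]
    have : |t - s| ≤ 1 := by rw [abs_le]; constructor <;> linarith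
    nlinarith
  · left
    rw [segment_symm] at hx
    exact inner 1 1 (by norm_num) (by norm_num) (by rwa [one_mul])
  · left
    rw [segment_symm] at hx
    exact inner (-1) 1 (by norm_num) (by norm_num) (by rwa [one_mul])
  · right; left
    exact leaf 1 1 (by norm_num) (by norm_num) hx
  · right; left
    exact leaf 1 (-1) (by norm_num) (by norm_num) hx
  · right; left
    exact leaf (-1) 1 (by norm_num) (by norm_num) hx
  · right; left
    exact leaf (-1) (-1) (by norm_num) (by norm_num) hx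

/-- The second tree lies in a box. -/
theorem TT_box (x : E2) (hx : x ∈ TT) : |x 0| ≤ 1 + 1 / 100 ∧ |x 1| ≤ 1 + √3 / 100 := by
  have h1 := sq3_gt
  have h2 := sq3_lt
  rcases TT_char x hx with ⟨σ, τ, t, hσ, hτ, ht, ht', e0, e1⟩ |
    ⟨σ, τ, t, hσ, hτ, ht, ht', e0, e1⟩ | ⟨e0, e1⟩
  · rw [e0, e1]
    constructor
    · rcases hσ with rfl | rfl <;> rw [abs_le] <;> constructor <;> nlinarith
    · rcases hτ with rfl | rfl <;> rw [abs_le] <;> constructor <;> nlinarith
  · rw [e0, e1]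
    constructor
    · rcases hσ with rfl | rfl <;> rw [abs_le] <;> constructor <;> nlinarith
    · rcases hτ with rfl | rfl <;> rw [abs_le] <;> constructor <;> nlinarith
  · rw [e0]
    constructor
    · norm_num
    · linarith

/-- Near a corner the second tree lies in a half plane which it touches at the corner only. -/
theorem TT_local (x : E2) (hx : x ∈ TT) (σ τ : ℝ) (hσ : σ = 1 ∨ σ = -1) (hτ : τ = 1 ∨ τ = -1)
    (h0 : |x 0 - σ| ≤ 1 / 4) (h1 : |x 1 - τ| ≤ 1 / 4) :
    σ * x 0 - τ * x 1 ≤ 0 ∧ (σ * x 0 - τ * x 1 = 0 → x = bb σ τ) := by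
  have g1 := sq3_gt
  have g2 := sq3_lt
  have a0 := abs_le.1 h0
  have a1 := abs_le.1 h1
  rcases TT_char x hx with ⟨σ', τ', t, hσ', hτ', ht, ht', e0, e1⟩ |
    ⟨σ', τ', t, hσ', hτ', ht, ht', e0, e1⟩ | ⟨e0, e1⟩
  · have hs : σ' = σ := by
      rcases hσ with rfl | rfl <;> rcases hσ' with rfl | rfl
      · rfl
      · exfalso; rw [e0] at a0; nlinarith
      · exfalso; rw [e0] at a0; nlinarith
      · rfl
    have ht2 : τ' = τ := by
      rcases hτ with rfl | rfl <;> rcases hτ' with rfl | rfl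
      · rfl
      · exfalso; rw [e1] at a1; nlinarith
      · exfalso; rw [e1] at a1; nlinarith
      · rfl
    subst hs ht2
    have e2 : σ' ^ 2 = 1 := by rcases hσ with rfl | rfl <;> norm_num
    have e3 : τ' ^ 2 = 1 := by rcases hτ with rfl | rfl <;> norm_num
    have e4 : σ' * x 0 - τ' * x 1 = - t * (1 - √3 / 3) := by
      rw [e0, e1]
      have : σ' * (σ' * (1 - t)) - τ' * (τ' * (1 - t * (√3 / 3)))
          = σ' ^ 2 * (1 - t) - τ' ^ 2 * (1 - t * (√3 / 3)) := by ring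
      rw [this, e2, e3]; ring
    rw [e4]
    constructor
    · nlinarith
    · intro h
      have h5 : t = 0 := by nlinarith
      subst h5
      ext i
      fin_cases i
      · simpa [bb] using e0
      · simpa [bb] using e1
  · have hs : σ' = σ := by
      rcases hσ with rfl | rfl <;> rcases hσ' with rfl | rfl
      · rfl
      · exfalso; rw [e0] at a0; nlinarith
      · exfalso; rw [e0] at a0; nlinarith
      · rfl
    have ht2 : τ' = τ := by
      rcases hτ with rfl | rfl <;> rcases hτ' with rfl | rfl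
      · rfl
      · exfalso; rw [e1] at a1; nlinarith
      · exfalso; rw [e1] at a1; nlinarith
      · rfl
    subst hs ht2
    have e2 : σ' ^ 2 = 1 := by rcases hσ with rfl | rfl <;> norm_num
    have e3 : τ' ^ 2 = 1 := by rcases hτ with rfl | rfl <;> norm_num
    have e4 : σ' * x 0 - τ' * x 1 = - t * ((√3 - 1) / 100) := by
      rw [e0, e1]
      have : σ' * (σ' * (1 + t / 100)) - τ' * (τ' * (1 + t * (√3 / 100)))
          = σ' ^ 2 * (1 + t / 100) - τ' ^ 2 * (1 + t * (√3 / 100)) := by ring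
      rw [this, e2, e3]; ring
    rw [e4]
    constructor
    · nlinarith
    · intro h
      have h5 : t = 0 := by nlinarith
      subst h5
      ext i
      fin_cases i
      · simpa [bb] using e0
      · simpa [bb] using e1
  · exfalso
    rw [e0] at a0
    rcases hσ with rfl | rfl <;> linarith

/-- No terminal is interior to a segment contained in the second tree: pendant end points. -/
theorem noseg_P (σ τ : ℝ) (hσ : σ = 1 ∨ σ = -1) (hτ : τ = 1 ∨ τ = -1) (x y : E2) (hxy : x ≠ y)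
    (hT : segment ℝ x y ⊆ TT) (h : PP σ τ ∈ openSegment ℝ x y) : False := by
  obtain ⟨a, b, ha, hb, hab, he⟩ := h
  have bx := TT_box x (hT (left_mem_segment ℝ x y))
  have bY := TT_box y (hT (right_mem_segment ℝ x y))
  have g1 := sq3_gt
  have x0 := abs_le.1 bx.1
  have x1 := abs_le.1 bx.2
  have y0 := abs_le.1 bY.1
  have y1 := abs_le.1 bY.2
  have e0 : a * x 0 + b * y 0 = σ * (1 + 1 / 100) := by
    have := congrArg (fun v : E2 => v 0) he
    simpa [PP] using this
  have e1 : a * x 1 + b * y 1 = τ * (1 + √3 / 100) := by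
    have := congrArg (fun v : E2 => v 1) he
    simpa [PP] using this
  have hb' : b = 1 - a := by linarith
  have key : ∀ (c u v R : ℝ), (c = 1 ∨ c = -1) → -R ≤ u → u ≤ R → -R ≤ v → v ≤ R →
      a * u + b * v = c * R → u = v := by
    intro c u v R hc hu1 hu2 hv1 hv2 h
    rcases hc with rfl | rfl
    · have h1 : a * (R - u) + b * (R - v) = 0 := by
        have : a * (R - u) + b * (R - v) = (a + b) * R - (a * u + b * v) := by ring
        rw [this, hab, h]; ring
      have h2 := mul_nonneg ha.le (sub_nonneg.2 hu2)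
      have h3 := mul_nonneg hb.le (sub_nonneg.2 hv2)
      have h4 : R - u = 0 := by
        rcases mul_eq_zero.1 (by linarith : a * (R - u) = 0) with h | h
        · exact absurd h ha.ne'
        · exact h
      have h5 : R - v = 0 := by
        rcases mul_eq_zero.1 (by linarith : b * (R - v) = 0) with h | h
        · exact absurd h hb.ne'
        · exact h
      linarith
    · have h1 : a * (u + R) + b * (v + R) = 0 := by
        have : a * (u + R) + b * (v + R) = (a + b) * R + (a * u + b * v) := by ring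
        rw [this, hab, h]; ring
      have h2 := mul_nonneg ha.le (by linarith : 0 ≤ u + R)
      have h3 := mul_nonneg hb.le (by linarith : 0 ≤ v + R)
      have h4 : u + R = 0 := by
        rcases mul_eq_zero.1 (by linarith : a * (u + R) = 0) with h | h
        · exact absurd h ha.ne'
        · exact h
      have h5 : v + R = 0 := by
        rcases mul_eq_zero.1 (by linarith : b * (v + R) = 0) with h | h
        · exact absurd h hb.ne'
        · exact h
      linarith
  apply hxy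
  ext i
  fin_cases i
  · exact key σ _ _ _ hσ x0.1 x0.2 y0.1 y0.2 e0
  · exact key τ _ _ _ hτ x1.1 x1.2 y1.1 y1.2 e1

/-- No terminal is interior to a segment contained in the second tree: corners. -/
theorem noseg_b (σ τ : ℝ) (hσ : σ = 1 ∨ σ = -1) (hτ : τ = 1 ∨ τ = -1) (x y : E2) (hxy : x ≠ y)
    (hT : segment ℝ x y ⊆ TT) (h : bb σ τ ∈ openSegment ℝ x y) : False := by
  have hbseg := openSegment_subset_segment ℝ x y h
  obtain ⟨a, b, ha, hb, hab, he⟩ := h
  have g2 := sq3_lt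
  have hconv := convex_segment (𝕜 := ℝ) x y
  have near : ∀ z ∈ segment ℝ x y, (23 / 24 : ℝ) • bb σ τ + (1 / 24 : ℝ) • z ∈ TT ∧
      |((23 / 24 : ℝ) • bb σ τ + (1 / 24 : ℝ) • z : E2) 0 - σ| ≤ 1 / 4 ∧
      |((23 / 24 : ℝ) • bb σ τ + (1 / 24 : ℝ) • z : E2) 1 - τ| ≤ 1 / 4 := by
    intro z hz
    have bz := TT_box z (hT hz)
    have z0 := abs_le.1 bz.1
    have z1 := abs_le.1 bz.2
    refine ⟨hT (hconv hbseg hz (by norm_num) (by norm_num) (by norm_num)), ?_, ?_⟩
    · simp only [PiLp.add_apply, PiLp.smul_apply, smul_eq_mul, bb_zero]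
      rw [abs_le]
      rcases hσ with rfl | rfl <;> constructor <;> linarith
    · simp only [PiLp.add_apply, PiLp.smul_apply, smul_eq_mul, bb_one]
      rw [abs_le]
      rcases hτ with rfl | rfl <;> constructor <;> linarith
  have e2 : σ ^ 2 = 1 := by rcases hσ with rfl | rfl <;> norm_num
  have e3 : τ ^ 2 = 1 := by rcases hτ with rfl | rfl <;> norm_num
  have F : ∀ z ∈ segment ℝ x y, σ * z 0 - τ * z 1 ≤ 0 ∧ (σ * z 0 - τ * z 1 = 0 → z = bb σ τ) := by
    intro z hz
    obtain ⟨n1, n2, n3⟩ := near z hz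
    obtain ⟨f1, f2⟩ := TT_local _ n1 σ τ hσ hτ n2 n3
    have e : σ * ((23 / 24 : ℝ) • bb σ τ + (1 / 24 : ℝ) • z : E2) 0
        - τ * ((23 / 24 : ℝ) • bb σ τ + (1 / 24 : ℝ) • z : E2) 1
        = (1 / 24) * (σ * z 0 - τ * z 1) := by
      simp only [PiLp.add_apply, PiLp.smul_apply, smul_eq_mul, bb_zero, bb_one]
      have : σ * (23 / 24 * σ + 1 / 24 * z 0) - τ * (23 / 24 * τ + 1 / 24 * z 1)
          = 23 / 24 * (σ ^ 2 - τ ^ 2) + 1 / 24 * (σ * z 0 - τ * z 1) := by ring
      rw [this, e2, e3]; ring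
    rw [e] at f1 f2
    refine ⟨by linarith, fun h => ?_⟩
    have h5 := f2 (by rw [h, mul_zero])
    have h6 : (1 / 24 : ℝ) • z = (1 / 24 : ℝ) • bb σ τ := by
      have : (1 / 24 : ℝ) • z = ((23 / 24 : ℝ) • bb σ τ + (1 / 24 : ℝ) • z) - (23 / 24 : ℝ) • bb σ τ := by
        abel
      rw [this, h5]
      have : bb σ τ = (1 : ℝ) • bb σ τ := (one_smul ℝ _).symm
      conv_lhs => rw [this]
      rw [smul_smul, ← sub_smul]
      norm_num
    exact smul_right_injective E2 (by norm_num : (1 / 24 : ℝ) ≠ 0) h6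
  have fx := F x (left_mem_segment ℝ x y)
  have fy := F y (right_mem_segment ℝ x y)
  have e0 : a * x 0 + b * y 0 = σ := by
    have := congrArg (fun v : E2 => v 0) he
    simpa [bb] using this
  have e1 : a * x 1 + b * y 1 = τ := by
    have := congrArg (fun v : E2 => v 1) he
    simpa [bb] using this
  have hz : a * (σ * x 0 - τ * x 1) + b * (σ * y 0 - τ * y 1) = 0 := by
    have : a * (σ * x 0 - τ * x 1) + b * (σ * y 0 - τ * y 1)
        = σ * (a * x 0 + b * y 0) - τ * (a * x 1 + b * y 1) := by ring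
    rw [this, e0, e1]
    have : σ * σ - τ * τ = σ ^ 2 - τ ^ 2 := by ring
    rw [this, e2, e3]; ring
  have h2 := mul_nonneg ha.le (by linarith [fx.1] : 0 ≤ -(σ * x 0 - τ * x 1))
  have h3 := mul_nonneg hb.le (by linarith [fy.1] : 0 ≤ -(σ * y 0 - τ * y 1))
  have h4 : σ * x 0 - τ * x 1 = 0 := by
    rcases mul_eq_zero.1 (by linarith : a * (σ * x 0 - τ * x 1) = 0) with h | h
    · exact absurd h ha.ne'
    · exact h
  have h5 : σ * y 0 - τ * y 1 = 0 := by
    rcases mul_eq_zero.1 (by linarith : b * (σ * y 0 - τ * y 1) = 0) with h | h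
    · exact absurd h hb.ne'
    · exact h
  exact hxy ((fx.2 h4).trans (fy.2 h5).symm)

theorem SS_ne_TT : SS ≠ TT := by
  intro h
  have h1 := sq3_gt
  have h2 := sq3_lt
  have hm : (!₂[1 - √3 / 3, 0] : E2) ∈ SS :=
    Or.inl (Or.inl (Or.inr (right_mem_segment ℝ _ _)))
  rw [h] at hm
  rcases TT_char _ hm with ⟨σ, τ, t, hσ, hτ, ht, ht', e0, e1⟩ |
    ⟨σ, τ, t, hσ, hτ, ht, ht', e0, e1⟩ | ⟨e0, e1⟩
  · simp at e1
    rcases e1 with e1 | e1
    · rcases hτ with rfl | rfl <;> norm_num at e1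
    · nlinarith
  · simp at e1
    rcases e1 with e1 | e1
    · rcases hτ with rfl | rfl <;> norm_num at e1
    · nlinarith
  · simp at e0
    linarith

end Pool.Agent.Helper463_ST
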