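import Mathlib
import Pool.Agent.Helper463_ST.Trees

/-!
The terminals, the points of `M`, and the two minimality statements.
-/

set_option autoImplicit false

namespace Pool.Agent.Helper463_ST

open scoped ENNReal NNReal
open MeasureTheory Metric Pool.Agent.Helper752

/-- The eight terminals. -/
noncomputable def pt : Fin 8 → E2 :=
  ![PP (-1) 1, PP 1 1, PP 1 (-1), PP (-1) (-1), bb (-1) 1, bb 1 1, bb 1 (-1), bb (-1) (-1)]

/-- The radius. -/
noncomputable def rr : ℝ := √2 / 1000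

/-- The point of `M` beyond the pendant end point. -/
noncomputable def YP (σ τ : ℝ) : E2 :=
  !₂[σ * (1 + 1 / 100) + rr * (σ / 2), τ * (1 + √3 / 100) + rr * (τ * (√3 / 2))]

/-- The point of `M` beside the corner. -/
noncomputable def YB (σ τ : ℝ) : E2 := !₂[σ + σ / 1000, τ - τ / 1000]

/-- The eight points of `M`. -/
noncomputable def yy : Fin 8 → E2 :=
  ![YP (-1) 1, YP 1 1, YP 1 (-1), YP (-1) (-1), YB (-1) 1, YB 1 1, YB 1 (-1), YB (-1) (-1)]

theorem rr_pos : 0 < rr := by unfold rr; positivity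

theorem rr_sq : rr ^ 2 = 2 / 1000000 := by
  unfold rr
  rw [div_pow, Real.sq_sqrt (by norm_num)]; norm_num

theorem rr_lt : rr < 1 / 500 := by
  have h := rr_sq
  have h' := rr_pos
  nlinarith

@[simp] theorem YP_zero (σ τ : ℝ) : (YP σ τ) 0 = σ * (1 + 1 / 100) + rr * (σ / 2) := by simp [YP]
@[simp] theorem YP_one (σ τ : ℝ) :
    (YP σ τ) 1 = τ * (1 + √3 / 100) + rr * (τ * (√3 / 2)) := by simp [YP]
@[simp] theorem YB_zero (σ τ : ℝ) : (YB σ τ) 0 = σ + σ / 1000 := by simp [YB]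
@[simp] theorem YB_one (σ τ : ℝ) : (YB σ τ) 1 = τ - τ / 1000 := by simp [YB]

theorem pt_inj : Function.Injective pt := by
  intro i j h
  have h0 := congrArg (fun v : E2 => v 0) h
  have h1 := congrArg (fun v : E2 => v 1) h
  have g1 := sq3_gt
  have g2 := sq3_lt
  clear h
  fin_cases i <;> fin_cases j <;> simp only [pt] at h0 h1 ⊢ <;>
    simp at h0 h1 ⊢ <;> linarith

theorem yy_inj : Function.Injective yy := by
  intro i j h
  have h0 := congrArg (fun v : E2 => v 0) h
  have h1 := congrArg (fun v : E2 => v 1) h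
  have g1 := sq3_gt
  have g2 := sq3_lt
  have g3 := rr_pos
  have g4 := rr_lt
  have g5 : 0 < rr * √3 := mul_pos g3 (by linarith)
  clear h
  fin_cases i <;> fin_cases j <;> simp only [yy] at h0 h1 ⊢ <;>
    simp at h0 h1 ⊢ <;> nlinarith

theorem pt_SS (i : Fin 8) : pt i ∈ SS := by
  fin_cases i <;> simp only [pt]
  · exact PP_SS _ _ (by norm_num) (by norm_num)
  · exact PP_SS _ _ (by norm_num) (by norm_num)
  · exact PP_SS _ _ (by norm_num) (by norm_num)
  · exact PP_SS _ _ (by norm_num) (by norm_num)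
  · exact bb_SS _ _ (by norm_num) (by norm_num)
  · exact bb_SS _ _ (by norm_num) (by norm_num)
  · exact bb_SS _ _ (by norm_num) (by norm_num)
  · exact bb_SS _ _ (by norm_num) (by norm_num)

theorem pt_TT (i : Fin 8) : pt i ∈ TT := by
  fin_cases i <;> simp only [pt]
  · exact PP_TT _ _ (by norm_num) (by norm_num)
  · exact PP_TT _ _ (by norm_num) (by norm_num)
  · exact PP_TT _ _ (by norm_num) (by norm_num)
  · exact PP_TT _ _ (by norm_num) (by norm_num)
  · exact corner_TT _ _ (by norm_num) (by norm_num)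
  · exact corner_TT _ _ (by norm_num) (by norm_num)
  · exact corner_TT _ _ (by norm_num) (by norm_num)
  · exact corner_TT _ _ (by norm_num) (by norm_num)

/-- Every connected compact set through the terminals has at least the length of the two trees. -/
theorem lower_pt (K : Set E2) (hK : IsCompact K) (hc : IsConnected K) (h : Set.range pt ⊆ K) :
    ENNReal.ofReal (2 + 2 * √3 + 4 * (1 / 50)) ≤ μH[1] K := by
  have g1 := sq3_gt
  have g2 := sq3_lt
  have g3 := sq3
  refine lower_bound hK hc pt (fun i => h ⟨i, rfl⟩) (1 / 50) le_rfl ?_ ?_ ?_ ?_ ?_ ?_ ?_ ?_ ?_ ?_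
  · intro i
    fin_cases i <;> simp [pt, zx] <;>
      first | (norm_num; done) | (rw [abs_le]; constructor <;> linarith)
  · intro i
    fin_cases i <;> simp [pt, zy] <;>
      first | (norm_num; done) | (rw [abs_le]; constructor <;> linarith)
  · simp [pt]; nlinarith
  · simp [pt]; nlinarith
  · simp [pt]; nlinarith
  · simp [pt]; nlinarith
  · simp [pt]
  · simp [pt]
  · simp [pt]
  · simp [pt]

/-- Every connected compact set within distance `rr` of the points of `M` has at least the length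
of the two trees. -/
theorem lower_yy (K : Set E2) (hK : IsCompact K) (hc : IsConnected K)
    (h : ∀ y ∈ Set.range yy, infDist y K ≤ rr) :
    ENNReal.ofReal (2 + 2 * √3 + 4 * (1 / 50)) ≤ μH[1] K := by
  have g1 := sq3_gt
  have g2 := sq3_lt
  have g3 := sq3
  have g4 := rr_pos
  have g5 := rr_lt
  have hz : ∀ i, ∃ z ∈ K, dist (yy i) z ≤ rr := by
    intro i
    obtain ⟨x, hx, hd⟩ := hK.exists_infDist_eq_dist hc.nonempty (yy i)
    exact ⟨x, hx, hd ▸ h _ ⟨i, rfl⟩⟩
  choose z hzK hzd using hz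
  have ex : ∀ i, |yy i 0 - z i 0| ≤ rr := by
    intro i
    rw [abs_le]
    have h1 := (lin_le 1 0 (by norm_num) (yy i) (z i)).trans (hzd i)
    have h2 := (lin_le (-1) 0 (by norm_num) (yy i) (z i)).trans (hzd i)
    constructor <;> linarith
  have ey : ∀ i, |yy i 1 - z i 1| ≤ rr := by
    intro i
    rw [abs_le]
    have h1 := (lin_le 0 1 (by norm_num) (yy i) (z i)).trans (hzd i)
    have h2 := (lin_le 0 (-1) (by norm_num) (yy i) (z i)).trans (hzd i)
    constructor <;> linarith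
  have g6 : rr * √3 ≤ 1 / 500 * 1.7321 := by
    apply mul_le_mul g5.le g2.le (by positivity) (by norm_num)
  have g6' : 0 < rr * √3 := mul_pos g4 (by linarith)
  have g7 : rr * √3 ^ 2 = 3 * rr := by rw [g3]; ring
  have s2 : √2 ^ 2 = 2 := Real.sq_sqrt (by norm_num)
  have s2p : 0 < √2 := Real.sqrt_pos.2 (by norm_num)
  have r2 : √2 * rr = 2 / 1000 := by
    unfold rr
    have : √2 * (√2 / 1000) = √2 ^ 2 / 1000 := by ring
    rw [this, s2]
  have hcs : (√2 / 2) ^ 2 + (√2 / 2) ^ 2 ≤ 1 := by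
    have : (√2 / 2) ^ 2 + (√2 / 2) ^ 2 = √2 ^ 2 / 2 := by ring
    rw [this, s2]; norm_num
  have diag : ∀ σ τ : ℝ, (σ = 1 ∨ σ = -1) → (τ = 1 ∨ τ = -1) → ∀ u v : E2, dist u v ≤ rr →
      σ * (u 0 - v 0) + τ * (u 1 - v 1) ≤ 2 / 1000 := by
    intro σ τ hσ hτ u v hd
    have e1 : σ ^ 2 = 1 := by rcases hσ with rfl | rfl <;> norm_num
    have e2 : τ ^ 2 = 1 := by rcases hτ with rfl | rfl <;> norm_num
    have h1 := (lin_le (σ * (√2 / 2)) (τ * (√2 / 2))
      (by rw [mul_pow, mul_pow, e1, e2, one_mul]; exact hcs) u v).trans hd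
    have h2 : √2 * (σ * (√2 / 2) * (u 0 - v 0) + τ * (√2 / 2) * (u 1 - v 1)) ≤ √2 * rr :=
      mul_le_mul_of_nonneg_left h1 s2p.le
    have h3 : √2 * (σ * (√2 / 2) * (u 0 - v 0) + τ * (√2 / 2) * (u 1 - v 1))
        = √2 ^ 2 / 2 * (σ * (u 0 - v 0) + τ * (u 1 - v 1)) := by ring
    rw [h3, s2, r2] at h2
    linarith
  have hS : ∀ c s : ℝ, c ^ 2 = 1 / 4 → s ^ 2 = 3 / 4 → ∀ u v : E2, dist u v ≤ rr →
      c * (u 0 - v 0) + s * (u 1 - v 1) ≤ rr := by
    intro c s hc hs u v hd
    exact (lin_le c s (by rw [hc, hs]; norm_num) u v).trans hd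
  refine lower_bound hK hc z hzK (1 / 50) le_rfl ?_ ?_ ?_ ?_ ?_ ?_ ?_ ?_ ?_ ?_
  · intro i
    have h1 := abs_le.1 (ex i)
    fin_cases i <;> simp [yy, zx] at h1 ⊢ <;> rw [abs_le] <;> constructor <;> linarith
  · intro i
    have h1 := abs_le.1 (ey i)
    fin_cases i <;> simp [yy, zy] at h1 ⊢ <;> rw [abs_le] <;> constructor <;> nlinarith
  · have h1 := hS (-1 / 2) (√3 / 2) (by norm_num) (by rw [div_pow, g3]; norm_num) _ _ (hzd 0)
    simp [yy] at h1
    nlinarith
  · have h1 := hS (1 / 2) (√3 / 2) (by norm_num) (by rw [div_pow, g3]; norm_num) _ _ (hzd 1)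
    simp [yy] at h1
    nlinarith
  · have h1 := hS (1 / 2) (-(√3 / 2)) (by norm_num) (by rw [neg_sq, div_pow, g3]; norm_num)
      _ _ (hzd 2)
    simp [yy] at h1
    nlinarith
  · have h1 := hS (-1 / 2) (-(√3 / 2)) (by norm_num) (by rw [neg_sq, div_pow, g3]; norm_num)
      _ _ (hzd 3)
    simp [yy] at h1
    nlinarith
  · have h1 := diag (-1) (-1) (by norm_num) (by norm_num) _ _ (hzd 4)
    simp [yy] at h1
    linarith
  · have h1 := diag 1 (-1) (by norm_num) (by norm_num) _ _ (hzd 5)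
    simp [yy] at h1
    linarith
  · have h1 := diag 1 1 (by norm_num) (by norm_num) _ _ (hzd 6)
    simp [yy] at h1
    linarith
  · have h1 := diag (-1) 1 (by norm_num) (by norm_num) _ _ (hzd 7)
    simp [yy] at h1
    linarith

theorem near_of {S : Set E2} {x y : E2} {r : ℝ} (hx : x ∈ S) (h : dist y x ≤ r) :
    infDist y S ≤ r := (infDist_le_dist_of_mem hx).trans h

theorem dist_YP (σ τ : ℝ) (hσ : σ = 1 ∨ σ = -1) (hτ : τ = 1 ∨ τ = -1) :
    dist (YP σ τ) (PP σ τ) ≤ rr := by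
  have e1 : σ ^ 2 = 1 := by rcases hσ with rfl | rfl <;> norm_num
  have e2 : τ ^ 2 = 1 := by rcases hτ with rfl | rfl <;> norm_num
  refine dist_le_of _ _ _ _ _ rr_pos.le ?_
  have : (σ * (1 + 1 / 100) + rr * (σ / 2) - σ * (1 + 1 / 100)) ^ 2
      + (τ * (1 + √3 / 100) + rr * (τ * (√3 / 2)) - τ * (1 + √3 / 100)) ^ 2
      = rr ^ 2 * (σ ^ 2 + τ ^ 2 * √3 ^ 2) / 4 := by ring
  rw [this, e1, e2, sq3]
  linarith

theorem dist_YB (σ τ : ℝ) (hσ : σ = 1 ∨ σ = -1) (hτ : τ = 1 ∨ τ = -1) :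
    dist (YB σ τ) (bb σ τ) ≤ rr := by
  have e1 : σ ^ 2 = 1 := by rcases hσ with rfl | rfl <;> norm_num
  have e2 : τ ^ 2 = 1 := by rcases hτ with rfl | rfl <;> norm_num
  refine dist_le_of _ _ _ _ _ rr_pos.le ?_
  have : (σ + σ / 1000 - σ) ^ 2 + (τ - τ / 1000 - τ) ^ 2 = (σ ^ 2 + τ ^ 2) / 1000000 := by ring
  rw [this, e1, e2, rr_sq]
  norm_num

/-- The points of `M` are within `rr` of the terminals. -/
theorem dist_yy (i : Fin 8) : dist (yy i) (pt i) ≤ rr := by
  fin_cases i <;> simp only [pt, yy]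
  · exact dist_YP _ _ (by norm_num) (by norm_num)
  · exact dist_YP _ _ (by norm_num) (by norm_num)
  · exact dist_YP _ _ (by norm_num) (by norm_num)
  · exact dist_YP _ _ (by norm_num) (by norm_num)
  · exact dist_YB _ _ (by norm_num) (by norm_num)
  · exact dist_YB _ _ (by norm_num) (by norm_num)
  · exact dist_YB _ _ (by norm_num) (by norm_num)
  · exact dist_YB _ _ (by norm_num) (by norm_num)

theorem noseg (a : E2) (ha : a ∈ Set.range pt) (x y : E2) (hxy : x ≠ y)
    (hT : segment ℝ x y ⊆ TT) (h : a ∈ openSegment ℝ x y) : False := by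
  obtain ⟨i, rfl⟩ := ha
  fin_cases i <;> simp only [pt] at h
  · exact noseg_P _ _ (by norm_num) (by norm_num) x y hxy hT h
  · exact noseg_P _ _ (by norm_num) (by norm_num) x y hxy hT h
  · exact noseg_P _ _ (by norm_num) (by norm_num) x y hxy hT h
  · exact noseg_P _ _ (by norm_num) (by norm_num) x y hxy hT h
  · exact noseg_b _ _ (by norm_num) (by norm_num) x y hxy hT h
  · exact noseg_b _ _ (by norm_num) (by norm_num) x y hxy hT h
  · exact noseg_b _ _ (by norm_num) (by norm_num) x y hxy hT h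
  · exact noseg_b _ _ (by norm_num) (by norm_num) x y hxy hT h

end Pool.Agent.Helper463_ST
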